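import Pool.Agent.Helper73.Dil.Rat

open Topology Set Filter MeasureTheory Metric

namespace Pool.Agent.Helper73.Dil

universe u

open DilationSurface

theorem cbb_ball_re {ξ : ℂ} (h : ξ ∈ ball (1 : ℂ) (1 / 2)) : 0 < ξ.re := by
  rw [mem_ball, dist_eq_norm] at h
  have h1 := Complex.abs_re_le_norm (ξ - 1)
  have h2 := neg_abs_le ((ξ - 1).re)
  simp only [Complex.sub_re, Complex.one_re] at h1 h2
  linarith

theorem cbb_log_im {ξ : ℂ} (h : ξ ∈ ball (1 : ℂ) (1 / 2)) :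
    |(Complex.log ξ).im| < Real.pi / 2 := by
  rw [Complex.log_im]
  exact Complex.abs_arg_lt_pi_div_two_iff.2 (Or.inl (cbb_ball_re h))

theorem cbb_slit {ξ : ℂ} (h : ξ ∈ ball (1 : ℂ) (1 / 2)) : ξ ∈ Complex.slitPlane :=
  Or.inl (cbb_ball_re h)

theorem cbb_im_mul (k : ℕ) (z : ℂ) : ((k / 2 : ℂ) * z).im = (k / 2 : ℝ) * z.im := by
  have : (k / 2 : ℂ) = ((k / 2 : ℝ) : ℂ) := by push_cast; rfl
  rw [this, Complex.im_ofReal_mul]

theorem cbb_im_mul' (k : ℕ) (z : ℂ) : ((2 / k : ℂ) * z).im = (2 / k : ℝ) * z.im := by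
  have : (2 / k : ℂ) = ((2 / k : ℝ) : ℂ) := by push_cast; rfl
  rw [this, Complex.im_ofReal_mul]

theorem cbb_log_exp {z : ℂ} (h : |z.im| < Real.pi) : Complex.log (Complex.exp z) = z := by
  rw [abs_lt] at h
  exact Complex.log_exp h.1 h.2.le

theorem cbb_exp_slit {z : ℂ} (h : |z.im| < Real.pi) : Complex.exp z ∈ Complex.slitPlane := by
  rw [Complex.mem_slitPlane_iff_arg]
  refine ⟨?_, Complex.exp_ne_zero z⟩
  rw [← Complex.log_im, cbb_log_exp h]
  have := abs_lt.1 h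
  exact this.2.ne

theorem cbb_k {k : ℕ} (hk : 1 ≤ k) (z : ℂ) (h : |z.im| < Real.pi / 2) :
    |((2 / k : ℂ) * z).im| < Real.pi / k := by
  have hk' : (0 : ℝ) < k := by exact_mod_cast hk
  rw [cbb_im_mul', abs_mul, abs_of_pos (by positivity)]
  rw [div_mul_eq_mul_div]
  gcongr
  linarith

theorem cbb_k2 {k : ℕ} (hk : 1 ≤ k) (z : ℂ) (h : |z.im| < Real.pi / k) :
    |((k / 2 : ℂ) * z).im| < Real.pi := by
  have hk' : (0 : ℝ) < k := by exact_mod_cast hk
  rw [cbb_im_mul, abs_mul, abs_of_pos (by positivity)]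
  have h1 : (k / 2 : ℝ) * |z.im| < k / 2 * (Real.pi / k) := by gcongr
  have h2 : (k / 2 : ℝ) * (Real.pi / k) = Real.pi / 2 := by field_simp
  have := Real.pi_pos
  linarith

theorem cbb_pi_div {k : ℕ} (hk : 1 ≤ k) : Real.pi / k ≤ Real.pi := by
  have hk' : (1 : ℝ) ≤ k := by exact_mod_cast hk
  exact div_le_self Real.pi_pos.le hk'

/-- the power map `η ↦ η ^ (k / 2)` near `1` -/
noncomputable def cbbPow (k : ℕ) (hk : 1 ≤ k) : OpenPartialHomeomorph ℂ ℂ where
  toFun η := Complex.exp ((k / 2 : ℂ) * Complex.log η)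
  invFun ξ := Complex.exp ((2 / k : ℂ) * Complex.log ξ)
  source := (Complex.slitPlane ∩ {η | |(Complex.log η).im| < Real.pi / k}) ∩
    (fun η => Complex.exp ((k / 2 : ℂ) * Complex.log η)) ⁻¹' ball (1 : ℂ) (1 / 2)
  target := ball (1 : ℂ) (1 / 2)
  map_source' := fun η hη => hη.2
  map_target' := fun ξ hξ => by
    have hk' : (k : ℂ) ≠ 0 := by exact_mod_cast (Nat.one_le_iff_ne_zero.1 hk)
    have h1 := cbb_k hk _ (cbb_log_im hξ)
    have h2 := h1.trans_le (cbb_pi_div hk)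
    refine ⟨⟨cbb_exp_slit h2, ?_⟩, ?_⟩
    · rw [mem_setOf_eq, cbb_log_exp h2]; exact h1
    · rw [mem_preimage, cbb_log_exp h2]
      have : (k / 2 : ℂ) * ((2 / k : ℂ) * Complex.log ξ) = Complex.log ξ := by field_simp
      rw [this, Complex.exp_log (Complex.slitPlane_ne_zero (cbb_slit hξ))]
      exact hξ
  left_inv' := fun η hη => by
    have hk' : (k : ℂ) ≠ 0 := by exact_mod_cast (Nat.one_le_iff_ne_zero.1 hk)
    rw [cbb_log_exp (cbb_k2 hk _ hη.1.2)]
    have : (2 / k : ℂ) * ((k / 2 : ℂ) * Complex.log η) = Complex.log η := by field_simp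
    rw [this, Complex.exp_log (Complex.slitPlane_ne_zero hη.1.1)]
  right_inv' := fun ξ hξ => by
    have hk' : (k : ℂ) ≠ 0 := by exact_mod_cast (Nat.one_le_iff_ne_zero.1 hk)
    have h1 := cbb_k hk _ (cbb_log_im hξ)
    have h2 := h1.trans_le (cbb_pi_div hk)
    rw [cbb_log_exp h2]
    have : (k / 2 : ℂ) * ((2 / k : ℂ) * Complex.log ξ) = Complex.log ξ := by field_simp
    rw [this, Complex.exp_log (Complex.slitPlane_ne_zero (cbb_slit hξ))]
  open_source := by
    have hlog : ContinuousOn Complex.log Complex.slitPlane := fun z hz =>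
      (Complex.differentiableAt_log hz).continuousAt.continuousWithinAt
    have h1 : IsOpen (Complex.slitPlane ∩ {η | |(Complex.log η).im| < Real.pi / k}) := by
      have := (Complex.continuous_im.comp_continuousOn hlog).abs.isOpen_inter_preimage
        Complex.isOpen_slitPlane (isOpen_Iio (a := Real.pi / k))
      exact this
    refine ContinuousOn.isOpen_inter_preimage ?_ h1 isOpen_ball
    exact (Complex.continuous_exp.comp_continuousOn
      (continuousOn_const.mul (hlog.mono inter_subset_left)))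
  open_target := isOpen_ball
  continuousOn_toFun := by
    have hlog : ContinuousOn Complex.log Complex.slitPlane := fun z hz =>
      (Complex.differentiableAt_log hz).continuousAt.continuousWithinAt
    exact (Complex.continuous_exp.comp_continuousOn
      (continuousOn_const.mul (hlog.mono (fun η hη => hη.1.1))))
  continuousOn_invFun := by
    have hlog : ContinuousOn Complex.log Complex.slitPlane := fun z hz =>
      (Complex.differentiableAt_log hz).continuousAt.continuousWithinAt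
    exact (Complex.continuous_exp.comp_continuousOn
      (continuousOn_const.mul (hlog.mono (fun η hη => cbb_slit hη))))

theorem cbbPow_sq {k : ℕ} (hk : 1 ≤ k) {η : ℂ} (hη : η ∈ (cbbPow k hk).source) :
    (cbbPow k hk η) ^ 2 = η ^ k := by
  have h1 : (cbbPow k hk η) = Complex.exp ((k / 2 : ℂ) * Complex.log η) := rfl
  have h0 : η ∈ Complex.slitPlane := hη.1.1
  rw [h1, ← Complex.exp_nat_mul]
  have h2 : ((2 : ℕ) : ℂ) * ((k / 2 : ℂ) * Complex.log η) = (k : ℂ) * Complex.log η := by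
    push_cast; ring
  rw [h2, Complex.exp_nat_mul, Complex.exp_log (Complex.slitPlane_ne_zero h0)]

theorem cbbPow_symm_norm {k : ℕ} (hk : 1 ≤ k) {ξ : ℂ} (hξ : ξ ∈ ball (1 : ℂ) (1 / 2)) :
    1 / 4 ≤ ‖(cbbPow k hk).symm ξ‖ ∧ ‖(cbbPow k hk).symm ξ‖ ≤ 9 / 4 := by
  have h1 : (cbbPow k hk).symm ξ = Complex.exp ((2 / k : ℂ) * Complex.log ξ) := rfl
  have h0 : ξ ≠ 0 := Complex.slitPlane_ne_zero (cbb_slit hξ)
  have h2 : ‖Complex.exp ((2 / k : ℂ) * Complex.log ξ)‖ = ‖ξ‖ ^ ((2 : ℝ) / k) := by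
    rw [Complex.norm_exp]
    have : (2 / k : ℂ) = ((2 / k : ℝ) : ℂ) := by push_cast; rfl
    rw [this, Complex.re_ofReal_mul, Complex.log_re, Real.rpow_def_of_pos (norm_pos_iff.2 h0),
      mul_comm]
  rw [mem_ball, dist_eq_norm] at hξ
  have h3 : ‖ξ‖ ≤ 3 / 2 := by
    have := norm_add_le (ξ - 1) 1
    rw [sub_add_cancel, norm_one] at this
    linarith
  have h4 : 1 / 2 ≤ ‖ξ‖ := by
    have := norm_sub_norm_le (1 : ℂ) (1 - ξ)
    rw [sub_sub_cancel, norm_one, ← norm_neg (1 - ξ), neg_sub] at this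
    linarith
  have hk' : (1 : ℝ) ≤ k := by exact_mod_cast hk
  have h5 : (2 : ℝ) / k ≤ 2 := div_le_self (by norm_num) hk'
  have h6 : 0 ≤ (2 : ℝ) / k := by positivity
  rw [h1, h2]
  constructor
  · calc (1 / 4 : ℝ) = (1 / 2 : ℝ) ^ (2 : ℝ) := by norm_num
      _ ≤ (1 / 2 : ℝ) ^ ((2 : ℝ) / k) :=
        Real.rpow_le_rpow_of_exponent_ge (by norm_num) (by norm_num) h5
      _ ≤ ‖ξ‖ ^ ((2 : ℝ) / k) := Real.rpow_le_rpow (by norm_num) h4 h6
  · calc ‖ξ‖ ^ ((2 : ℝ) / k) ≤ (3 / 2 : ℝ) ^ ((2 : ℝ) / k) :=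
        Real.rpow_le_rpow (norm_nonneg _) h3 h6
      _ ≤ (3 / 2 : ℝ) ^ (2 : ℝ) :=
        Real.rpow_le_rpow_of_exponent_le (by norm_num) h5
      _ = 9 / 4 := by norm_num

/-- two local square roots of the same function differ by a sign -/
theorem cbb_sqrt_unique {X : Type u} [TopologicalSpace X] {f g : X → ℂ} {x : X}
    (hf : ContinuousAt f x) (hg : ContinuousAt g x) (h0 : f x ≠ 0)
    (h : ∀ᶠ y in 𝓝 x, f y ^ 2 = g y ^ 2) :
    (∀ᶠ y in 𝓝 x, f y = g y) ∨ (∀ᶠ y in 𝓝 x, f y = - g y) := by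
  have hx := h.self_of_nhds
  rcases sq_eq_sq_iff_eq_or_eq_neg.1 hx with h1 | h1
  · left
    have h2 : ContinuousAt (fun y => f y + g y) x := hf.add hg
    have h3 : f x + g x ≠ 0 := by rw [← h1]; intro h; apply h0; linear_combination h / 2
    filter_upwards [h, h2.eventually_ne h3] with y hy hy2
    rcases sq_eq_sq_iff_eq_or_eq_neg.1 hy with h4 | h4
    · exact h4
    · exact absurd (by rw [h4]; ring) hy2
  · right
    have h2 : ContinuousAt (fun y => f y - g y) x := hf.sub hg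
    have h3 : f x - g x ≠ 0 := by
      intro h; apply h0; linear_combination h / 2 + h1 / 2
    filter_upwards [h, h2.eventually_ne h3] with y hy hy2
    rcases sq_eq_sq_iff_eq_or_eq_neg.1 hy with h4 | h4
    · exact absurd (by rw [h4]; ring) hy2
    · exact h4

/-- multiplication by a nonzero complex number followed by a translation -/
noncomputable def cbbAff (s : ℂ) (hs : s ≠ 0) (w : ℂ) : ℂ ≃ₜ ℂ where
  toFun z := s * z + w
  invFun z := s⁻¹ * (z - w)
  left_inv z := by field_simp; ring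
  right_inv z := by field_simp; ring
  continuous_toFun := by fun_prop
  continuous_invFun := by fun_prop

theorem cbbAff_apply (s : ℂ) (hs : s ≠ 0) (w z : ℂ) : cbbAff s hs w z = s * z + w := rfl

theorem cbbAff_symm_apply (s : ℂ) (hs : s ≠ 0) (w z : ℂ) :
    (cbbAff s hs w).symm z = s⁻¹ * (z - w) := rfl

theorem sb_CBB : SB_CBB.{u} := by
  intro X _ D p k ψ hψ x hx hxp hx4
  have hk := hψ.one_le
  set w0 : ℂ := ψ x with hw0
  have hw0ne : w0 ≠ 0 := by
    intro h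
    apply hxp
    apply ψ.injOn hx hψ.src
    rw [hψ.zero, ← hw0, h]
  obtain ⟨z0, hz0⟩ : ∃ z : ℂ, z ^ 2 = w0 ^ k := by
    obtain ⟨z, hz⟩ := IsAlgClosed.exists_pow_nat_eq (w0 ^ k) (n := 2) (by norm_num)
    exact ⟨z, hz⟩
  have hz0ne : z0 ≠ 0 := by
    rintro rfl
    have : w0 ^ k ≠ 0 := pow_ne_zero _ hw0ne
    apply this; rw [← hz0]; simp
  have hnz : (0 : ℝ) < ‖z0‖ := norm_pos_iff.2 hz0ne
  have hnzc : ((‖z0‖ : ℝ) : ℂ) ≠ 0 := by exact_mod_cast hnz.ne'
  have hs1 : w0⁻¹ ≠ 0 := inv_ne_zero hw0ne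
  have hs2 : 2 * z0 / ‖z0‖ ≠ 0 := div_ne_zero (mul_ne_zero two_ne_zero hz0ne) hnzc
  set b : OpenPartialHomeomorph X ℂ :=
    ((ψ.transHomeomorph (cbbAff w0⁻¹ hs1 0)).trans (cbbPow k hk)).transHomeomorph
      (cbbAff (2 * z0 / ‖z0‖) hs2 (-(2 * z0 / ‖z0‖))) with hb
  have happ : ∀ y, b y = (2 * z0 / ‖z0‖) * cbbPow k hk (w0⁻¹ * ψ y) - (2 * z0 / ‖z0‖) := by
    intro y
    simp [hb, cbbAff_apply, sub_eq_add_neg]
  have hsrc : ∀ y, y ∈ b.source ↔ y ∈ ψ.source ∧ w0⁻¹ * ψ y ∈ (cbbPow k hk).source := by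
    intro y
    simp [hb, cbbAff_apply]
  have hsq : ∀ y ∈ b.source, ((‖z0‖ / 2 : ℝ) * b y + z0) ^ 2 = ψ y ^ k := by
    intro y hy
    have h1 := cbbPow_sq hk ((hsrc y).1 hy).2
    have h2 : ((‖z0‖ / 2 : ℝ) : ℂ) * b y + z0 = z0 * cbbPow k hk (w0⁻¹ * ψ y) := by
      rw [happ]; push_cast; field_simp; ring
    rw [h2, mul_pow, h1, hz0, ← mul_pow, mul_inv_cancel_left₀ hw0ne]
  have hnorm : ∀ y ∈ b.source, ‖w0‖ / 4 ≤ ‖ψ y‖ ∧ ‖ψ y‖ ≤ 9 / 4 * ‖w0‖ := by
    intro y hy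
    have h1 := ((hsrc y).1 hy).2
    have h2 := cbbPow_symm_norm hk ((cbbPow k hk).map_source h1)
    rw [(cbbPow k hk).left_inv h1] at h2
    have h3 : ψ y = w0 * (w0⁻¹ * ψ y) := by rw [mul_inv_cancel_left₀ hw0ne]
    rw [h3, norm_mul]
    have h4 : 0 ≤ ‖w0‖ := norm_nonneg _
    constructor
    · nlinarith [h2.1]
    · nlinarith [h2.2]
  have hyp : ∀ y ∈ b.source, y ≠ p := by
    intro y hy hyp
    have h1 := (hnorm y hy).1
    rw [hyp, hψ.zero, norm_zero] at h1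
    have := norm_pos_iff.2 hw0ne
    linarith
  have htgt : b.target = B1 := by
    have himg : b.target = b '' b.source := b.image_source_eq_target.symm
    rw [himg]
    ext z
    constructor
    · rintro ⟨y, hy, rfl⟩
      have h1 := (cbbPow k hk).map_source ((hsrc y).1 hy).2
      have h2 : cbbPow k hk (w0⁻¹ * ψ y) ∈ ball (1 : ℂ) (1 / 2) := h1
      rw [mem_ball, dist_eq_norm] at h2
      rw [B1, mem_ball_zero_iff, happ]
      have h3 : (2 * z0 / ‖z0‖) * cbbPow k hk (w0⁻¹ * ψ y) - (2 * z0 / ‖z0‖)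
        = (2 * z0 / ‖z0‖) * (cbbPow k hk (w0⁻¹ * ψ y) - 1) := by ring
      rw [h3, norm_mul, norm_div, norm_mul, Complex.norm_real, norm_norm]
      have h4 : ‖(2 : ℂ)‖ * ‖z0‖ / ‖z0‖ = 2 := by
        rw [mul_div_assoc, div_self hnz.ne', mul_one]; simp
      rw [h4]; linarith
    · intro hz
      rw [B1, mem_ball_zero_iff] at hz
      set ξ : ℂ := 1 + z * ‖z0‖ / (2 * z0) with hξ
      have hξb : ξ ∈ ball (1 : ℂ) (1 / 2) := by
        rw [mem_ball, dist_eq_norm, hξ, add_sub_cancel_left, norm_div, norm_mul, norm_mul,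
          Complex.norm_real, norm_norm, mul_div_mul_right _ _ hnz.ne']
        simp only [Complex.norm_ofNat]
        linarith
      have h1 := (cbbPow k hk).map_target hξb
      have h2 := cbbPow_symm_norm hk hξb
      have h3 : w0 * (cbbPow k hk).symm ξ ∈ ψ.target := by
        rw [hψ.tgt, B1, mem_ball_zero_iff, norm_mul]
        have h4 : 0 ≤ ‖w0‖ := norm_nonneg _
        nlinarith [h2.1, h2.2]
      have h5 : w0⁻¹ * ψ (ψ.symm (w0 * (cbbPow k hk).symm ξ)) = (cbbPow k hk).symm ξ := by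
        rw [ψ.right_inv h3, inv_mul_cancel_left₀ hw0ne]
      refine ⟨ψ.symm (w0 * (cbbPow k hk).symm ξ), (hsrc _).2 ⟨ψ.map_target h3, ?_⟩, ?_⟩
      · rw [h5]; exact h1
      · rw [happ, h5, (cbbPow k hk).right_inv hξb, hξ]
        field_simp
        ring
  have hxs : x ∈ b.source := by
    rw [hsrc]
    refine ⟨hx, ?_⟩
    rw [← hw0, inv_mul_cancel₀ hw0ne]
    refine ⟨⟨Complex.one_mem_slitPlane, ?_⟩, ?_⟩
    · rw [mem_setOf_eq, Complex.log_one, Complex.zero_im, abs_zero]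
      have hk' : (0 : ℝ) < k := by exact_mod_cast hk
      have := Real.pi_pos
      positivity
    · simp [Complex.log_one]
  have hbx : b x = 0 := by
    rw [happ, ← hw0, inv_mul_cancel₀ hw0ne]
    have : cbbPow k hk 1 = 1 := by
      change Complex.exp ((k / 2 : ℂ) * Complex.log 1) = 1
      simp
    rw [this]; ring
  have hchart : D.IsChart b := by
    refine ⟨fun y hy => (hψ.model y ((hsrc y).1 hy).1 (hyp y hy)).1, fun e' he' y hy hye' => ?_⟩
    obtain ⟨a, β, ha, h⟩ := (hψ.model y ((hsrc y).1 hy).1 (hyp y hy)).2 e'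
      (isChart_of_atlas he') hye'
    have hac : (a : ℂ) ≠ 0 := by exact_mod_cast ha
    have h1 : ∀ᶠ y' in 𝓝 y, (a * e' y' + β) ^ 2 = ((‖z0‖ / 2 : ℝ) * b y' + z0) ^ 2 := by
      filter_upwards [h, b.open_source.mem_nhds hy] with y' h1 h2
      rw [h1, hsq y' h2]
    have hc1 : ContinuousAt (fun y' => (a : ℂ) * e' y' + β) y :=
      (continuousAt_const.mul (e'.continuousAt hye')).add continuousAt_const
    have hc2 : ContinuousAt (fun y' => ((‖z0‖ / 2 : ℝ) : ℂ) * b y' + z0) y :=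
      (continuousAt_const.mul (b.continuousAt hy)).add continuousAt_const
    have hne : (a : ℂ) * e' y + β ≠ 0 := by
      intro h0
      have h2 := h.self_of_nhds
      rw [h0] at h2
      have h3 : ψ y ≠ 0 := by
        intro h4
        have h5 := (hnorm y hy).1
        rw [h4, norm_zero] at h5
        have := norm_pos_iff.2 hw0ne
        linarith
      exact pow_ne_zero k h3 (by rw [← h2]; simp)
    rcases cbb_sqrt_unique hc1 hc2 hne h1 with h2 | h2
    · refine ⟨|2 * a / ‖z0‖|, 2 * a / ‖z0‖, 2 / ‖z0‖ * (β - z0), by positivity, rfl, ?_⟩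
      filter_upwards [h2] with y' hy'
      have h3 : b y' = 2 / ‖z0‖ * ((‖z0‖ / 2 : ℝ) * b y' + z0 - z0) := by
        push_cast; field_simp; ring
      rw [h3, ← hy']
      push_cast
      ring
    · refine ⟨|-(2 * a / ‖z0‖)|, -(2 * a / ‖z0‖), 2 / ‖z0‖ * (-β - z0), ?_, rfl, ?_⟩
      · exact neg_ne_zero.2 (div_ne_zero (mul_ne_zero two_ne_zero ha) hnz.ne')
      filter_upwards [h2] with y' hy'
      have h3 : b y' = 2 / ‖z0‖ * (-(-((‖z0‖ / 2 : ℝ) * b y' + z0)) - z0) := by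
        push_cast; field_simp; ring
      rw [h3, ← hy']
      push_cast
      ring
  exact ⟨b, z0, ⟨hchart, htgt⟩, hxs, hbx, hz0, fun y hy => ((hsrc y).1 hy).1,
    fun y hy => ⟨hyp y hy, hsq y hy, (hnorm y hy).1, (hnorm y hy).2⟩⟩

end Pool.Agent.Helper73.Dil
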