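import Pool.Agent.Helper73.Dil.Main
import Pool.Agent.Helper73.Dil.Rat

open Topology Set Filter MeasureTheory Metric

namespace Pool.Agent.Helper73.Dil

universe u

open DilationSurface

theorem gr_UH (g : G) : tau g ∈ UH := by
  have h := tau_im g
  have hd := det_eq g
  change 0 < (tau g).im
  rw [h]
  have hne : 0 < g.1 0 0 ^ 2 + g.1 1 0 ^ 2 := by
    rcases eq_or_ne (g.1 0 0) 0 with h1 | h1
    · rcases eq_or_ne (g.1 1 0) 0 with h2 | h2
      · rw [h1, h2] at hd; simp at hd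
      · positivity
    · positivity
  positivity

theorem gr_norm_sq {α : Type*} [MeasurableSpace α] {μ : Measure α} (f : Lp ℂ 2 μ) :
    ‖f‖ ^ 2 = ∫ x, ‖f x‖ ^ 2 ∂μ := by
  have h2 := MeasureTheory.L2.inner_def (𝕜 := ℂ) f f
  have h3 : (inner ℂ f f : ℂ) = ((‖f‖ ^ 2 : ℝ) : ℂ) := by
    rw [inner_self_eq_norm_sq_to_K]; push_cast; rfl
  rw [h3] at h2
  have h4 : ∀ z, (inner ℂ (f z) (f z) : ℂ) = ((‖f z‖ ^ 2 : ℝ) : ℂ) := by
    intro z
    rw [inner_self_eq_norm_sq_to_K]; push_cast; rfl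
  simp_rw [h4] at h2
  rw [integral_complex_ofReal] at h2
  exact_mod_cast h2

/-- index type of all solutions -/
def GrIdx {X : Type u} [TopologicalSpace X] [MeasurableSpace X] (D : DilationSurface X)
    (R : D.Ref) (S : D.Scale) : Type u :=
  {i : G × R.H × (X → ℝ) // R.IsSol S (tau i.1) i.2.1 i.2.2 ∧ Continuous i.2.2}

/-- the local estimate at regular points -/
theorem gr_regular (hREG : ST_REG) (hBALL : SB_BALL.{u}) (hLOCL : SB_LOCL.{u})
    {X : Type u} [TopologicalSpace X] [CompactSpace X] [T2Space X] [MeasurableSpace X]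
    [BorelSpace X] (D : DilationSurface X) (R : D.Ref) (S : D.Scale) (x : X) (hx : x ∉ D.cone) :
    ∃ N ∈ 𝓝 x, ∀ i : GrIdx D R S, ∀ y ∈ N,
      |i.1.2.2 y - i.1.2.2 x| ≤ 2 * (1 + hs i.1.1 * Real.sqrt (tau i.1.1).im * ‖i.1.2.1‖) := by
  obtain ⟨b, hb, hxb, hbx, -⟩ := hBALL X D x hx univ univ_mem
  obtain ⟨L, hL1, hL2, -⟩ := (hLOCL X D R).1 b hb
  have hcont : ContinuousAt (S.u b) x := by
    have h1 := (S.smooth b hb.1 x hxb).continuousAt
    have h2 : ContinuousAt (fun y => ((S.u b y : ℝ) : ℂ)) x := by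
      have h3 : ContinuousAt (((fun y => ((S.u b y : ℝ) : ℂ)) ∘ b.symm) ∘ b) x :=
        ContinuousAt.comp h1 (b.continuousAt hxb)
      refine h3.congr ?_
      filter_upwards [b.open_source.mem_nhds hxb] with y hy
      simp [b.left_inv hy]
    have h3 : ContinuousAt (fun y => (((S.u b y : ℝ) : ℂ)).re) x :=
      (Complex.continuous_re.tendsto _).comp h2
    simpa only [Complex.ofReal_re] using h3
  have hN1 : ∀ᶠ y in 𝓝 x, |S.u b y - S.u b x| < 1 := by
    have := (Metric.continuousAt_iff'.1 hcont) 1 one_pos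
    simpa [Real.dist_eq] using this
  have hN2 : ∀ᶠ y in 𝓝 x, b y ∈ Bh := by
    apply (b.continuousAt hxb).eventually
    rw [hbx]
    exact isOpen_ball.mem_nhds (mem_ball_self (by norm_num))
  refine ⟨_, inter_mem (inter_mem hN1 hN2) (b.open_source.mem_nhds hxb), ?_⟩
  rintro ⟨⟨g, c, f⟩, hsol, hf⟩ y ⟨⟨hy1, hy2⟩, hy3⟩
  dsimp only at hsol hf ⊢
  obtain ⟨w, hw1, hw2, hw3⟩ := hsol b hb
  have hae : (L c : ℂ → ℂ) =ᵐ[volume.restrict B1] fun z => deriv w (tc (tau g) z) :=
    (hL1 c).trans hw2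
  have hint : Integrable (fun z => ‖deriv w (tc (tau g) z)‖ ^ 2) (volume.restrict B1) := by
    have h1 := (Lp.memLp (L c)).integrable_norm_pow (by norm_num)
    refine h1.congr ?_
    filter_upwards [hae] with z hz
    rw [hz]
  have hnorm : ∫ z in B1, ‖deriv w (tc (tau g) z)‖ ^ 2 = ‖L c‖ ^ 2 := by
    have h1 : ‖L c‖ ^ 2 = ∫ z in B1, ‖(L c) z‖ ^ 2 := gr_norm_sq (L c)
    rw [h1]
    apply integral_congr_ae
    filter_upwards [hae] with z hz
    rw [hz]
  have hLc : ‖L c‖ ≤ ‖c‖ := by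
    have h1 := hL2 c
    have h2 : ‖c‖ ^ 2 = ∫ x, ‖c x‖ ^ 2 ∂(R.mu) := gr_norm_sq c
    have h3 : ∫ x in b.source, ‖c x‖ ^ 2 ∂(R.mu) ≤ ∫ x, ‖c x‖ ^ 2 ∂(R.mu) := by
      apply setIntegral_le_integral
      · have h1 := (Lp.memLp c).integrable_norm_pow (by norm_num)
        simpa using h1
      · exact Eventually.of_forall fun x => by positivity
    rw [← h1, ← h2] at h3
    exact (sq_le_sq₀ (norm_nonneg _) (norm_nonneg _)).1 h3
  have h0 : (0 : ℂ) ∈ Bh := mem_ball_self (by norm_num)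
  have hBh : Bh ⊆ B1 := ball_subset_ball (by norm_num)
  have hest := hREG g w hw1 hint (b y) hy2 0 h0
  rw [hnorm, Real.sqrt_mul (gr_UH g).le, Real.sqrt_sq (norm_nonneg _)] at hest
  have h1 := hw3 (b y) (hBh hy2)
  have h2 := hw3 0 (hBh h0)
  have h4 : b.symm 0 = x := by rw [← hbx, b.left_inv hxb]
  rw [b.left_inv hy3] at h1
  rw [h4] at h2
  have h5 : |(w (tc (tau g) (b y))).re - (w (tc (tau g) 0)).re| ≤
      ‖w (tc (tau g) (b y)) - w (tc (tau g) 0)‖ := by
    rw [← Complex.sub_re]; exact Complex.abs_re_le_norm _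
  have h6 : f y - f x = ((w (tc (tau g) (b y))).re - (w (tc (tau g) 0)).re) -
      (S.u b y - S.u b x) := by linarith
  have h7 : |f y - f x| ≤ |(w (tc (tau g) (b y))).re - (w (tc (tau g) 0)).re| +
      |S.u b y - S.u b x| := by
    rw [h6]; exact abs_sub _ _
  have h8 : |S.u b y - S.u b x| < 1 := hy1
  have h9 : 2 * hs g * (Real.sqrt (tau g).im * ‖L c‖) ≤
      2 * hs g * (Real.sqrt (tau g).im * ‖c‖) := by
    have : 0 ≤ hs g := le_trans zero_le_one (one_le_hs g)
    gcongr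
  have h10 : 2 * hs g * (Real.sqrt (tau g).im * ‖c‖) =
      2 * (hs g * Real.sqrt (tau g).im * ‖c‖) := by ring
  linarith

theorem gr_circle_connected {X : Type u} [TopologicalSpace X]
    (ψ : OpenPartialHomeomorph X ℂ) (hψ : ψ.target = B1) :
    IsConnected (ψ.symm '' sphere (0 : ℂ) (1 / 8)) := by
  apply (isConnected_sphere (by rw [Complex.rank_real_complex]; norm_num) 0
    (by norm_num)).image
  apply ψ.symm.continuousOn.mono
  intro z hz
  simp only [OpenPartialHomeomorph.symm_source, hψ, B1, mem_ball_zero_iff]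
  rw [mem_sphere_zero_iff_norm] at hz
  rw [hz]; norm_num

theorem sb_GR (hREG : ST_REG) (hEXT : SB_EXT.{u}) (hMAXX : ST_MAXX.{u}) (hCHAIN : ST_CHAIN.{u})
    (hBALL : SB_BALL.{u}) (hLOCL : SB_LOCL.{u}) : SB_GR.{u} := by
  intro X _ _ _ _ _ _ D R S
  set w : GrIdx D R S → ℝ := fun i => 1 + hs i.1.1 * Real.sqrt (tau i.1.1).im * ‖i.1.2.1‖ with hw
  have hw0 : ∀ i, 0 ≤ w i := by
    intro i
    have : 0 ≤ hs i.1.1 := le_trans zero_le_one (one_le_hs _)
    simp only [hw]
    positivity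
  have hmain : ∀ x : X, ∃ N ∈ 𝓝 x, ∃ C : ℝ, ∀ i : GrIdx D R S, ∀ y ∈ N,
      |i.1.2.2 y - i.1.2.2 x| ≤ C * w i := by
    intro x
    by_cases hx : x ∈ D.cone
    · obtain ⟨k, ψ, hψ, hflat⟩ := S.flat x hx
      -- the circle
      set Ci : Set X := ψ.symm '' sphere (0 : ℂ) (1 / 8) with hCi
      have hsph : sphere (0 : ℂ) (1 / 8) ⊆ ψ.target := by
        intro z hz
        rw [hψ.tgt, B1, mem_ball_zero_iff]
        rw [mem_sphere_zero_iff_norm] at hz
        rw [hz]; norm_num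
      have hcb : closedBall (0 : ℂ) (1 / 8) ⊆ ψ.target := by
        intro z hz
        rw [hψ.tgt, B1, mem_ball_zero_iff]
        rw [mem_closedBall_zero_iff] at hz
        exact lt_of_le_of_lt hz (by norm_num)
      have hCicomp : IsCompact Ci :=
        (isCompact_sphere _ _).image_of_continuousOn (ψ.symm.continuousOn.mono hsph)
      have hCireg : ∀ y ∈ Ci, y ∉ D.cone := by
        rintro _ ⟨z, hz, rfl⟩
        refine (hψ.model _ (ψ.map_target (hsph hz)) ?_).1
        intro h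
        have h1 : z = 0 := by rw [← ψ.right_inv (hsph hz), h, hψ.zero]
        rw [mem_sphere_zero_iff_norm, h1, norm_zero] at hz
        norm_num at hz
      obtain ⟨C, hC⟩ : ∃ C : ℝ, ∀ i : GrIdx D R S, ∀ y1 ∈ Ci, ∀ y2 ∈ Ci,
          |i.1.2.2 y1 - i.1.2.2 y2| ≤ C * w i := by
        have : CompactSpace Ci := isCompact_iff_compactSpace.1 hCicomp
        have : ConnectedSpace Ci :=
          isConnected_iff_connectedSpace.1 (gr_circle_connected ψ hψ.tgt)
        obtain ⟨C, hC⟩ := hCHAIN Ci (GrIdx D R S) (fun i y => i.1.2.2 y.1) w hw0 (by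
          intro y
          obtain ⟨N, hN, h⟩ := gr_regular hREG hBALL hLOCL D R S y.1 (hCireg _ y.2)
          exact ⟨Subtype.val ⁻¹' N, continuousAt_subtype_val.preimage_mem_nhds hN, 2,
            fun i y' hy' => h i y'.1 hy'⟩)
        exact ⟨C, fun i y1 h1 y2 h2 => hC i ⟨y1, h1⟩ ⟨y2, h2⟩⟩
      set W : Set X := ψ.source ∩ ψ ⁻¹' ball (0 : ℂ) (1 / 8) with hW
      have hWo : IsOpen W := ψ.isOpen_inter_preimage isOpen_ball
      have hxW : x ∈ W := ⟨hψ.src, by simp [hψ.zero]⟩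
      have hcomp : IsCompact (ψ.symm '' closedBall (0 : ℂ) (1 / 8)) :=
        (isCompact_closedBall _ _).image_of_continuousOn (ψ.symm.continuousOn.mono hcb)
      have hWc : closure W ⊆ ψ.symm '' closedBall (0 : ℂ) (1 / 8) := by
        apply closure_minimal _ hcomp.isClosed
        rintro y ⟨hy1, hy2⟩
        exact ⟨ψ y, ball_subset_closedBall hy2, ψ.left_inv hy1⟩
      have hWfr : frontier W ⊆ Ci := by
        intro y hy
        rw [frontier, hWo.interior_eq] at hy
        obtain ⟨z, hz, rfl⟩ := hWc hy.1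
        refine ⟨z, ?_, rfl⟩
        rw [mem_sphere_zero_iff_norm]
        rw [mem_closedBall_zero_iff] at hz
        by_contra hne
        apply hy.2
        refine ⟨ψ.map_target (hcb (by rw [mem_closedBall_zero_iff]; exact hz)), ?_⟩
        rw [mem_preimage, ψ.right_inv (hcb (by rw [mem_closedBall_zero_iff]; exact hz)),
          mem_ball_zero_iff]
        exact lt_of_le_of_ne hz hne
      have hWne : W ≠ univ := by
        intro h
        have h1 : ((1 / 8 : ℝ) : ℂ) ∈ sphere (0 : ℂ) (1 / 8) := by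
          rw [mem_sphere_zero_iff_norm, Complex.norm_real]; norm_num
        have h2 : ψ.symm ((1 / 8 : ℝ) : ℂ) ∈ W := by rw [h]; trivial
        have h3 := h2.2
        rw [mem_preimage, ψ.right_inv (hsph h1), mem_ball_zero_iff, Complex.norm_real] at h3
        norm_num at h3
      refine ⟨W, hWo.mem_nhds hxW, C, ?_⟩
      rintro ⟨⟨g, c, f⟩, hsol, hf⟩ y hy
      dsimp only at hsol hf ⊢
      obtain ⟨f', hf'1, hf'2, hf'3⟩ := hEXT X D R S (tau g) c f (gr_UH g) hsol
      have hff : f' = f := by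
        funext z
        exact eq_of_regular D hf'1 hf (fun z hz => hf'2 z hz) z
      subst hff
      have hloc := hf'3 x hx k ψ hψ hflat
      obtain ⟨y1, hy1, hmax⟩ := hMAXX X W f' hWo (hcomp.of_isClosed_subset isClosed_closure hWc)
        ⟨x, hxW⟩ hWne hf.continuousOn (fun z hz hm => hloc z hz.1 (Or.inl hm))
      obtain ⟨y2, hy2, hmin⟩ := hMAXX X W (fun z => - f' z) hWo
        (hcomp.of_isClosed_subset isClosed_closure hWc)
        ⟨x, hxW⟩ hWne hf.neg.continuousOn (fun z hz hm => by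
          have hm' : IsLocalMin f' z := by
            have := hm.neg
            simpa using this
          filter_upwards [hloc z hz.1 (Or.inr hm')] with a ha
          rw [ha])
      have e1 := hmax y (subset_closure hy)
      have e2 := hmax x (subset_closure hxW)
      have e3 := hmin y (subset_closure hy)
      have e4 := hmin x (subset_closure hxW)
      have e5 := hC ⟨⟨g, c, f'⟩, hsol, hf⟩ y1 (hWfr hy1) y2 (hWfr hy2)
      dsimp only at e5
      rw [abs_le] at e5 ⊢
      constructor <;> linarith [e5.1, e5.2]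
    · obtain ⟨N, hN, h⟩ := gr_regular hREG hBALL hLOCL D R S x hx
      exact ⟨N, hN, 2, h⟩
  obtain ⟨C, hC⟩ := hCHAIN X (GrIdx D R S) (fun i y => i.1.2.2 y) w hw0 hmain
  exact ⟨C, fun g c f h1 h2 x y => hC ⟨⟨g, c, f⟩, h1, h2⟩ x y⟩

end Pool.Agent.Helper73.Dil
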